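import Pool.Agent.Zk15.PfW11
import Pool.Agent.Zk15.Fp18
import Pool.Agent.Zk15.Gf1

/-!
MP_4d1008_ag: regular models over the integers, in every dimension, of the arithmetic schemes whose
function field is the function field of the quotient of a product of curves over a finite field by
an arbitrary finite group, with wild ramification.

Let `k` be a finite field of characteristic `p`, and let a finite group `G` act over `k` on smooth
projective curves `C 0, ..., C n`, and faithfully on `C 0`. Assume that the orders of the inertia
groups of the closed points of `C 0` are not divisible by `p ^ 2`; for example `p ^ 2` does not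
divide the order of `G`. If the product `C 0 × ... × C n` over `k` is integral, then there is a
regular integral scheme, proper over the integers (it is a smooth projective variety over `k`),
which is birational to `(C 0 × ... × C n) / G`. There are no conditions on the structure of `G` (it
need not be solvable, and no Sylow subgroup needs to be normal), on the ramification (the breaks are
arbitrary) and on the action on `C 1, ..., C n` (it need not be faithful).

The proof: the resolution of `(C 0 × ... × C n) / G` over an algebraically closed field
(helper10's MP_19ffc6_ag.FiniteGroupProducts, see there), redone over perfect fields, where the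
points need not be rational (the modules `Zk15/Pf*`), with projective models: the bases over the
two affine pieces of the curve `C 0` are glued (`projJ_dom`), and the other curves are covered by
two affine pieces which are stable under `G`.

helper15, with modules by helper10 (the charts, the graded algebras, the projective coordinates),
helper57 (filtrations of curves, breaks), helper52 (regularity of the graded algebra, smoothness and
derivations of tensor products), helper50 (generators), helper86 (products of varieties), redone for
perfect fields; built on the library of the starting files (WeightedWildQuotients,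
LinearGroupTowers and others).
-/

set_option autoImplicit false

open AlgebraicGeometry CategoryTheory

namespace Pool.Agent.Results.MP_4d1008_ag.CurveProductQuotients

/-- The `k`-algebra `T`, with the homomorphisms `j i : E i → T`, is the tensor product of the
`k`-algebras `E i` (given by its universal property). -/
def IsTensorProduct {k : Type} [Field k] {n : ℕ} {E : Fin n → Type} [∀ i, CommRing (E i)]
    [∀ i, Algebra k (E i)] {T : Type} [CommRing T] [Algebra k T] (j : ∀ i, E i →ₐ[k] T) : Prop :=
  ∀ (S : Type) [CommRing S] [Algebra k S] (f : ∀ i, E i →ₐ[k] S),
    ∃! g : T →ₐ[k] S, ∀ i, g.comp (j i) = f i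

/-- The inertia group of the valuation ring `V` of `E` in the group `G` which acts on `E`: the
elements of `G` which map `V` to itself and act trivially on its residue field. -/
def inertia (G : Type) {E : Type} [Field E] [Group G] [MulSemiringAction G E]
    (V : ValuationSubring E) : Set G :=
  {g | ∀ x ∈ V, g • x - x ∈ V.nonunits}

/-- The dimension of the local ring of `X` at `x` equals the dimension of its cotangent space. -/
def IsRegularAt {X : Scheme.{0}} (x : X) : Prop :=
  (((Module.finrank (IsLocalRing.ResidueField (X.presheaf.stalk x))
    (IsLocalRing.CotangentSpace (X.presheaf.stalk x)) : ℕ∞)) : WithBot ℕ∞)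
    = ringKrullDim (X.presheaf.stalk x)

/-- Let `k` be a finite field of characteristic `p` and let `G` be a finite group which acts over
`k` on the function fields `E 0, ..., E n` of one variable over `k`, and faithfully on `E 0`. Assume
that the orders of the inertia groups of the places of `E 0` are not divisible by `p ^ 2` (for
example that `p ^ 2` does not divide the order of `G`). Let `K` be the field of fractions of the
tensor product of `E 0, ..., E n` over `k`, if it is a domain, with the action of `G`. Every
integral scheme `Y` of finite type over the integers whose function field is isomorphic to the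
field of invariants of `G` on `K` is birational to a regular integral scheme `X` which is proper
over the integers. -/
theorem result (p : ℕ) [Fact p.Prime] (k : Type) [Field k] [Finite k] [CharP k p]
    (G : Type) [Group G] [Finite G] (n : ℕ) (E : Fin (n + 1) → Type) [∀ i, Field (E i)]
    [∀ i, Algebra k (E i)] [∀ i, Algebra.EssFiniteType k (E i)]
    (hE : ∀ i, Algebra.trdeg k (E i) = 1)
    [∀ i, MulSemiringAction G (E i)] [∀ i, SMulCommClass G k (E i)] [FaithfulSMul G (E 0)]
    (hG : ∀ V : ValuationSubring (E 0), V ≠ ⊤ → ¬ p ^ 2 ∣ Nat.card (inertia G V))
    (T : Type) [CommRing T] [IsDomain T] [Algebra k T] (j : ∀ i, E i →ₐ[k] T)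
    (hj : IsTensorProduct j)
    (K : Type) [Field K] [Algebra T K] [IsFractionRing T K] [MulSemiringAction G K]
    (hjG : ∀ (g : G) (i : Fin (n + 1)) (x : E i),
      g • algebraMap T K (j i x) = algebraMap T K (j i (g • x)))
    (Y : Scheme.{0}) [IsIntegral Y] (s : Y ⟶ Spec (CommRingCat.of ℤ)) [LocallyOfFiniteType s]
    [QuasiCompact s] (hY : Nonempty (Y.functionField ≃+* FixedPoints.subfield G K)) :
    ∃ (X : Scheme.{0}) (_ : IsIntegral X) (g : X ⟶ Spec (CommRingCat.of ℤ)), IsProper g ∧
      (∀ x : X, IsRegularAt x) ∧ Nonempty (X.functionField ≃+* Y.functionField) := by
  classical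
  let _ : Algebra k K := ((algebraMap T K).comp (algebraMap k T)).toAlgebra
  have htow : IsScalarTower k T K := IsScalarTower.of_algebraMap_eq fun x => rfl
  have hcomm : SMulCommClass G k K := by
    refine ⟨fun g c x => ?_⟩
    have h1 : g • algebraMap k K c = algebraMap k K c := by
      have h2 := hjG g 0 (algebraMap k (E 0) c)
      have h3 : g • algebraMap k (E 0) c = algebraMap k (E 0) c := smul_algebraMap g c
      rw [h3, AlgHom.commutes, ← IsScalarTower.algebraMap_apply] at h2
      exact h2
    rw [Algebra.smul_def, smul_mul', h1, ← Algebra.smul_def]
  let ρ : ∀ i, G →* (E i ≃ₐ[k] E i) := fun i => MulSemiringAction.toAlgAut G k (E i)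
  let ρK : G →* (K ≃ₐ[k] K) := MulSemiringAction.toAlgAut G k K
  have hρ : Function.Injective (ρ 0) := by
    intro a b hab
    exact FaithfulSMul.eq_of_smul_eq_smul fun o : E 0 =>
      congrArg (fun f : E 0 ≃ₐ[k] E 0 => f o) hab
  let L := FixedPoints.intermediateField G (F := k) (E := K)
  obtain ⟨I, hI, w, J, hM, -⟩ := Pool.Agent.Zk15.PG.main_ff (p := p) hE ρ hρ
    (fun V _ hV => hG V hV) hj ρK hjG L.val (fun x => ⟨fun h => ⟨⟨x, h⟩, rfl⟩, by
      rintro ⟨y, rfl⟩ g
      exact y.2 g⟩)
  obtain ⟨X, hX, g, hg, hreg, ⟨i⟩⟩ :=
    Pool.Agent.Zk15.regular_of_hasSm (Pool.Agent.Zk15.hasSm_of_model hM)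
  obtain ⟨i'⟩ := hY
  exact ⟨X, hX, g, hg, hreg, ⟨i.trans i'.symm⟩⟩

end Pool.Agent.Results.MP_4d1008_ag.CurveProductQuotients
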