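import Pool.Agent.Zk92.VQ.Mod
import Pool.Agent.W418.Z.Reg

/-!
MP_4d1008_ag: regular models, proper over `ℤ`, in all even dimensions, of the integral schemes of
finite type over `ℤ` which are birational to the quotient of a product `X 1 × ... × X n` of surfaces
over a finite field `k` of characteristic `p` by a commutative finite group scheme with an
infinitesimal part.

Let `G` be a finite commutative group of order prime to `p` (such that `k` contains the roots of
unity of its exponent) which acts on the surfaces `X i`, and let `D i` be a vector field on `X i`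
which commutes with `G`, with `(D i) ^ p = 0` for all `i` (an action of `α_p` on `X i`), or with
`(D i) ^ p = (μ i) ^ (p - 1) * D i`, `μ i ≠ 0` in `k`, for all `i` (an action of a form of `μ_p`). The
vector fields and the action may be arbitrarily degenerate, and the `X i` may be singular. The
theorem is about the quotients of `X 1 × ... × X n` by the diagonal action of `G` and by any set of
linear combinations `∑ i, v i * D i` with coefficients in `k`: these are the quotients by
`G × H`, where `H` is a subgroup scheme of `(α_p) ^ n` (of `(μ_p) ^ n`), for example by the diagonal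
action of the group scheme `G × α_p` (`G × μ_p`). The starting file `AbelianQuotients` on this
problem is about étale groups `G × ℤ / p`.

The proof: (1) The field `K'` generated by the fixed fields `(E i) ^ G`, where `E i` is the function
field of `X i`, is the function field of a product of surfaces, and there are smooth projective
models with normal crossings boundary for the field of constants `N'` of the vector fields in `K'`
on which given products of constants of the `D i` have their zeros and poles in the boundary
(helper188, `Pool.Agent.TH188.VQ`). (2) NEW: the function field `N` of the quotient is generated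
over `N'` by finitely many elements whose `m`-th powers are such products: each eigenfunction of `G`
in `E i` is the product of an invariant function and of an eigenfunction which is a `p`-th power,
hence a constant of `D i`; the products of these eigenfunctions contain a basis of `K` over
`K'`, and the coordinates of the invariant constants in this basis are constants, by the linear
independence. (3) So `N` is a tame abelian covering of `N'`, branched only in the boundary
(helper762). (4) A smooth projective model over a finite field is regular and proper over `ℤ`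
(helper418).

helper92; built on the library of the starting files (helpers 188, 883, 762, 98, 558, 418 and
others).
-/

set_option autoImplicit false

open AlgebraicGeometry CategoryTheory TensorProduct Pool.Agent.W558

namespace Pool.Agent.Results.MP_4d1008_ag.GroupSchemeQuotients

/-- The field `E` is the function field of a smooth projective variety over `k`, given by
homogeneous coordinates `H 0, ..., H N` in `E`: the coordinate rings `k[H 0 / H i, ..., H N / H i]`
of the charts are smooth over `k` and have the fraction field `E`. For function fields of surfaces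
over perfect fields this condition is always satisfied, by the resolution of singularities of
surfaces. -/
def HasSmoothProjectiveModel (k E : Type) [Field k] [Field E] [Algebra k E] : Prop :=
  ∃ (N : ℕ) (H : Fin (N + 1) → E), (∀ i, H i ≠ 0) ∧ ∀ i,
    Algebra.Smooth k (Algebra.adjoin k (Set.range fun j => H j / H i)) ∧
    IsFractionRing (Algebra.adjoin k (Set.range fun j => H j / H i)) E

/-- Every integral scheme of finite type over `ℤ` with the function field `L` has a regular model
which is proper over `ℤ`. -/
def HasRegularModels (L : Type) [Field L] : Prop :=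
  ∀ (Y : Scheme.{0}) (_ : IsIntegral Y) (f : Y ⟶ Spec (CommRingCat.of ℤ))
    (_ : LocallyOfFiniteType f) (_ : QuasiCompact f) (_ : Nonempty (Y.functionField ≃+* L)),
    ∃ (X' : Scheme.{0}) (_ : IsIntegral X') (g : X' ⟶ Spec (CommRingCat.of ℤ)),
      IsProper g ∧
      (∀ x : X',
        (((Module.finrank (IsLocalRing.ResidueField (X'.presheaf.stalk x))
            (IsLocalRing.CotangentSpace (X'.presheaf.stalk x)) : ℕ∞)) : WithBot ℕ∞)
          = ringKrullDim (X'.presheaf.stalk x)) ∧
      Nonempty (X'.functionField ≃+* Y.functionField)

section

variable {k K : Type} [Field k] [Field K] [Algebra k K] {n : ℕ}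
  (E : Fin n → IntermediateField k K)

/-- The field `K` is generated by its subfields `E 1, ..., E n`, which are linearly disjoint over
`k`: the homomorphism from their tensor product over `k` to `K`, which maps `x 1 ⊗ ... ⊗ x n` to
`x 1 * ... * x n`, is injective. So, if `E i` is the function field of the variety `X i`, then `K`
is the function field of `X 1 × ... × X n`. -/
structure IsProduct : Prop where
  generate : IntermediateField.adjoin k (⋃ i, (E i : Set K)) = ⊤
  disjoint : Function.Injective (PiTensorProduct.lift
    ((MultilinearMap.mkPiAlgebra k (Fin n) K).compLinearMap fun i => (E i).val.toLinearMap))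

variable {G : Type} [CommGroup G] (ρ : G →* (K ≃ₐ[k] K))

/-- The field of the elements of `F` which are fixed by the group `G`. -/
def fixedField (F : IntermediateField k K) : IntermediateField k K where
  carrier := {x | x ∈ F ∧ ∀ g, ρ g x = x}
  mul_mem' := fun ha hb => ⟨F.mul_mem ha.1 hb.1, fun g => by rw [map_mul, ha.2, hb.2]⟩
  add_mem' := fun ha hb => ⟨F.add_mem ha.1 hb.1, fun g => by rw [map_add, ha.2, hb.2]⟩
  algebraMap_mem' := fun c => ⟨F.algebraMap_mem c, fun g => AlgEquiv.commutes _ c⟩
  inv_mem' := fun x hx => ⟨F.inv_mem hx.1, fun g => by rw [map_inv₀, hx.2]⟩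

/-- The group `G` acts on the factor `E i`, and the fixed field is the function field of a smooth
projective surface over `k` (of a surface birational to `X i / G`). -/
structure ActsOnSurfaces : Prop where
  maps : ∀ g i, ∀ x ∈ E i, ρ g x ∈ E i
  surface : ∀ i, Algebra.trdeg k (fixedField ρ (E i)) = 2 ∧
    HasSmoothProjectiveModel k (fixedField ρ (E i))

variable (D : Fin n → Derivation k K K)

/-- The derivation `D i` of `K` is induced by a derivation (a vector field) of the factor `E i`
which commutes with `G`: it maps `E i` to `E i`, it vanishes on the `E l`, `l ≠ i`, and it commutes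
with `G`. -/
structure AreFieldsOnFactors : Prop where
  maps : ∀ i, ∀ x ∈ E i, D i x ∈ E i
  vanish : ∀ i l, i ≠ l → ∀ x ∈ E l, D i x = 0
  commute : ∀ g i x, ρ g (D i x) = D i (ρ g x)

/-- Either `(D i) ^ p = 0` on `E i` for all `i` (actions of `α_p`), or there are elements `μ i ≠ 0`
of `k` such that `(D i) ^ p = μ i ^ (p - 1) * D i` on `E i` for all `i` (actions of forms of `μ_p`). -/
def PowerCondition (p : ℕ) : Prop :=
  (∀ i, ∀ x ∈ E i, (D i)^[p] x = 0) ∨
    ∃ μ : Fin n → k, (∀ i, μ i ≠ 0) ∧ ∀ i, ∀ x ∈ E i, (D i)^[p] x = μ i ^ (p - 1) • D i x

/-- The element `z` is a product of elements `s i` of the `E i` with `D i (s i) = 0` which are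
eigenfunctions of `G`. -/
def IsProductOfConstants (z : K) : Prop :=
  ∃ s : Fin n → K, (∀ i, s i ∈ E i ∧ D i (s i) = 0 ∧ ∀ g, ∃ c : k, ρ g (s i) = c • s i) ∧
    z = ∏ i, s i

end

/-- Let `k` be a finite field of characteristic `p` with a primitive `m`-th root of unity, where
`p ∤ m`, let `K` be generated by linearly disjoint subfields `E 1, ..., E n` (the function field of a
product of surfaces `X i`), let `G` be a finite commutative group with `g ^ m = 1` for all `g`, which
acts on `K` by automorphisms over `k` such that `E i` is mapped to `E i` and the fixed field of `G`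
in `E i` is the function field of a smooth projective surface for all `i`, and let `D i` be vector
fields on the factors which commute with `G`, with `(D i) ^ p = 0` for all `i`, or
`(D i) ^ p = μ i ^ (p - 1) * D i`, `μ i ≠ 0` in `k`, for all `i`. Let `V` be a set of vectors in
`k ^ n`, and let `N` be the field of the elements of `K` which are fixed by `G` and are mapped to `0`
by all `∑ i, v i * D i`, `v ∈ V` (the function field of the quotient). Let `L` be generated over
`N` by finitely many elements `w j ≠ 0` such that `w j ^ e j`, for an exponent `e j` prime to `p`,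
is a product of elements `s i ∈ E i` which are eigenfunctions of `G` with `D i (s i) = 0` (for
example `L = N`). Then every integral scheme of finite type over `ℤ` with the function field `L` has
a regular model which is proper over `ℤ`. -/
theorem result (p : ℕ) [Fact p.Prime] (k K : Type) [Field k] [Finite k] [CharP k p] [Field K]
    [Algebra k K] (n : ℕ) (E : Fin n → IntermediateField k K) (hE : IsProduct E) (m : ℕ)
    (hm : ¬ p ∣ m) (ζ : k) (hζ : IsPrimitiveRoot ζ m) (G : Type) [CommGroup G] [Finite G]
    (hG : ∀ g : G, g ^ m = 1) (ρ : G →* (K ≃ₐ[k] K)) (hρ : ActsOnSurfaces E ρ)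
    (D : Fin n → Derivation k K K) (hD : AreFieldsOnFactors E ρ D) (hDp : PowerCondition E D p)
    (V : Set (Fin n → k)) (N : IntermediateField k K)
    (hN : ∀ x, x ∈ N ↔ (∀ g, ρ g x = x) ∧ ∀ v ∈ V, ∑ i, v i • D i x = 0)
    (L : Type) [Field L] [Algebra N L] (r : ℕ) (w : Fin r → L) (e : Fin r → ℕ)
    (hw0 : ∀ j, w j ≠ 0) (he : ∀ j, ¬ p ∣ e j)
    (hw : ∀ j, ∃ z : N, IsProductOfConstants E ρ D (z : K) ∧ w j ^ e j = algebraMap N L z)
    (hL : IntermediateField.adjoin N (Set.range w) = ⊤) : HasRegularModels L := by
  have hm0 : m ≠ 0 := fun h => hm (h ▸ dvd_zero p)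
  have hfix : ∀ i, Pool.Agent.Zk92.VQ.fixE ρ (E i) = fixedField ρ (E i) := fun i => rfl
  have hmod : ∀ (E : Type) [Field E] [Algebra k E], HasSmoothProjectiveModel k E →
      HasModel k E := by
    rintro E _ _ ⟨N, H, h0, h1⟩
    refine ⟨N, H, h0, fun i => ⟨(h1 i).1, fun x => ?_⟩⟩
    have h2 := (h1 i).2
    obtain ⟨a, b, hb, rfl⟩ := IsFractionRing.div_surjective
      (A := Algebra.adjoin k (Set.range fun j => H j / H i)) x
    exact ⟨a, a.2, b, b.2, fun h => nonZeroDivisors.ne_zero hb (Subtype.ext h),
      div_eq_mul_inv _ _⟩
  have h1 := Pool.Agent.Zk92.VQ.mod_inv ρ E D hE.disjoint hD.maps hD.vanish hD.commute p hm0 hm hζ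
    hG (fun i => (hρ.surface i).1) (fun i => hmod _ (hρ.surface i).2) hE.generate hρ.maps hDp V N hN
  let aL : Algebra k L := ((algebraMap N L).comp (algebraMap k N)).toAlgebra
  have tL : IsScalarTower k N L := IsScalarTower.of_algebraMap_eq fun c => rfl
  have h2 := Pool.Agent.N762.FP.mod_rad p h1 w hw0 e he (fun j => by
    obtain ⟨z, ⟨s, hs, hz⟩, h⟩ := hw j
    exact ⟨z, ⟨s, fun i => ⟨(hs i).1, (hs i).2.1, fun g _ => (hs i).2.2 g⟩, hz⟩, h⟩) hL
  intro Y _ f _ _ ⟨ε⟩
  obtain ⟨T, I, hT, hI, M, hFr, -⟩ := h2 Empty (fun i => i.elim) (fun i => i.elim)
    (fun i => i.elim)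
  obtain ⟨X', hX', g, h1, h2, ⟨h3⟩⟩ := Pool.Agent.W418.Z.regular_of_LM M (fun t z => by
    obtain ⟨a, ha, b, hb, hb0, rfl⟩ := hFr t z
    exact ⟨a, ha, b, hb, hb0, (div_eq_mul_inv _ _).symm⟩)
  exact ⟨X', hX', g, h1, h2, ⟨h3.trans ε.symm⟩⟩

end Pool.Agent.Results.MP_4d1008_ag.GroupSchemeQuotients
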