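import Pool.Agent.Zk62.OZ.Main
import Pool.Agent.Zk52.OZ.Desc
import Pool.Agent.Zk50.OZ.Lms

/-!
MP_4d1008_ag: regular models over the integers, in every dimension, of the quotients of products of
ordinary curves over large finite fields, with wild ramification by arbitrary finite `p`-groups.

Let `κ` be an algebraic closure of the field with `p` elements. Let `P` be a finite `p`-group, not
necessarily commutative, and `C` a finite commutative group of order prime to `p`, and let `P × C`
act on curves `Y 1, ..., Y n` over `κ` which are ordinary (the Jacobian varieties of the smooth
projective curves with the function fields `κ (Y i)` are ordinary). There is no condition on the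
actions, which are given on affine models of the curves. Let
`X = (Y 1 × ... × Y n) / (P × C)`. A model `F` of the function field `K = κ (X)` over a finite field
is a subfield of `K` which is finitely generated (over the field with `p` elements) with `κ F = K`:
the function field of a scheme `X 0` of finite type over the integers, which is geometrically
integral over a finite subfield `k 0` of `κ`, such that `X 0 ×_{k 0} κ` is birational to `X`. The
theorem: for every such `F` there is a finite subfield `k 1` of `κ` such that for all finite
subfields `k 2` of `κ` which contain `k 1`, every integral scheme of finite type over the integers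
with the function field `k 2 F` (for example `X 0 ×_{k 0} k 2`) is birational to a regular integral
scheme which is proper over the integers.

So every form of `X` over a finite field has regular models, proper over the integers, after all
sufficiently large finite extensions of the field of constants. For example, let `X 0` be a variety
over a finite field which is over `κ` birational to `(E 1 × ... × E n) / P`, where the `E i` are
ordinary elliptic curves, and `P` is any finite `p`-group which acts on the `E i`.

The theorem holds also if some of the `Y i` are not ordinary and `P × C` acts on them such that for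
each place of `κ (Y i)` the order of the stabilizer (in the group of automorphisms of `κ (Y i)`) is
not divisible by `p ^ 2`, or the second ramification group is trivial.

The proof: over `κ` there is a smooth projective variety with the function field `K`, by the theory
of towers of helper10 and Nakajima's theorem on the ramification of ordinary curves, which is proved
there (`Pool.Agent.Zk10`; not handed in elsewhere). It is given by homogeneous coordinates in `K`
with smooth affine charts. The quotients of the coordinates and the equations of the charts are
defined over `k 1 F` and over `k 1`, for a finite field `k 1`, and smoothness descends along the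
faithfully flat extensions `κ` of the fields `k 2`. A smooth projective variety over `k 2` is regular
and proper over the integers.

helper62 (invariants of products of affine curves, assembly), with modules by helper52 (descent) and
helper50 (homogeneous coordinates); built on the library of helper10 and helper15 and on the library
of the starting files.
-/

set_option autoImplicit false

open AlgebraicGeometry CategoryTheory

namespace Pool.Agent.Results.MP_4d1008_ag.OrdinaryCurveQuotients

/-- The `k`-algebra `B`, with the homomorphisms `j i : A i → B`, is the tensor product of the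
`k`-algebras `A i` (given by its universal property). -/
def IsTensorProduct {k : Type} [Field k] {n : ℕ} {A : Fin n → Type} [∀ i, CommRing (A i)]
    [∀ i, Algebra k (A i)] {B : Type} [CommRing B] [Algebra k B] (j : ∀ i, A i →ₐ[k] B) : Prop :=
  ∀ (S : Type) [CommRing S] [Algebra k S] (f : ∀ i, A i →ₐ[k] S),
    ∃! g : B →ₐ[k] S, ∀ i, g.comp (j i) = f i

/-- The field `E` is the function field of an ordinary curve over `k`: a function which is at every
point of the smooth projective curve with the function field `E` the sum of a `p`-th power and of a
regular function is a `p`-th power. In other words, the Frobenius map of the first cohomology group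
of the structure sheaf of the smooth projective curve is injective, the Jacobian variety is
ordinary. -/
def IsOrdinaryCurve (p : ℕ) (k E : Type) [Field k] [Field E] [Algebra k E] : Prop :=
  Algebra.trdeg k E = 1 ∧
  ∀ f : E, (∀ V : ValuationSubring E, (∀ c : k, algebraMap k E c ∈ V) →
    ∃ r : E, f - r ^ p ∈ V) → ∃ g : E, f = g ^ p

/-- The automorphisms of the field of fractions `E` of the `k`-algebra `A` which are induced by the
elements of the group `G` which acts on `A`. -/
def induced (k : Type) (A : Type) (E : Type) (G : Type) [Field k] [CommRing A] [Field E]
    [Algebra k E] [Algebra A E] [Group G] [MulSemiringAction G A] : Set (E ≃ₐ[k] E) :=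
  {s | ∃ g : G, ∀ a : A, s (algebraMap A E a) = algebraMap A E (g • a)}

section conditions

variable {k E : Type} [Field k] [Field E] [Algebra k E] (Γ : Set (E ≃ₐ[k] E))

/-- The stabilizer of the valuation ring `V`: the elements of `Γ` which map `V` to `V`. -/
def stabilizer (V : ValuationSubring E) : Set (E ≃ₐ[k] E) :=
  {s | s ∈ Γ ∧ ∀ x ∈ V, s x ∈ V}

/-- The action is weakly ramified at `V`: the identity is the only element of the stabilizer which
is the identity modulo the third power of the maximal ideal. -/
def IsWeaklyRamifiedAt (V : ValuationSubring E) : Prop :=
  ∀ s ∈ stabilizer Γ V, (∀ (x : V) (h : s x - x ∈ V),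
    (⟨s x - x, h⟩ : V) ∈ IsLocalRing.maximalIdeal V ^ 3) → s = 1

/-- The field `E` is the function field of a curve over `k`, and for all points of the smooth
projective curve with the function field `E` (the valuation rings `V` of `E` over `k`, `V ≠ E`) the
order of the stabilizer in `Γ` is not divisible by `p ^ 2`, or the action is weakly ramified. -/
def IsMildCurve (p : ℕ) : Prop :=
  Algebra.trdeg k E = 1 ∧
  ∀ V : ValuationSubring E, (∀ c : k, algebraMap k E c ∈ V) → V ≠ ⊤ →
    ¬ p ^ 2 ∣ Nat.card (stabilizer Γ V) ∨ IsWeaklyRamifiedAt Γ V

end conditions

/-- The dimension of the local ring of `X` at `x` equals the dimension of its cotangent space. -/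
def IsRegularAt {X : Scheme.{0}} (x : X) : Prop :=
  (((Module.finrank (IsLocalRing.ResidueField (X.presheaf.stalk x))
    (IsLocalRing.CotangentSpace (X.presheaf.stalk x)) : ℕ∞)) : WithBot ℕ∞)
    = ringKrullDim (X.presheaf.stalk x)

/-- Let `κ` be an algebraic closure of the field with `p` elements, `P` a finite `p`-group, and `C` a
finite commutative group of order prime to `p`. Let `P × C` act over `κ` on the coordinate rings
`A i` of integral affine curves over `κ`, `i < n`, with the function fields `E i`, which are ordinary
(with any action of `P × C`), or on which `P × C` acts mildly. Let `B` be the tensor product of the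
`A i` over `κ`, with the action of `P × C`, and let `K` be the field of fractions of the ring of
invariants, the function field of the quotient `X` of the product of the curves by `P × C`. Let
`F` be a finitely generated subfield of `K` with `κ F = K`, that is, the function field of a form of
`X` over a finite field. Then there is a finite subfield `k₁` of `κ` such that for all finite
subfields `k₂` of `κ` which contain `k₁` every integral scheme `Y` of finite type over the integers
whose function field is isomorphic to `k₂ F` is birational to a regular integral scheme `X'` which is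
proper over the integers. -/
theorem result (p : ℕ) [Fact p.Prime] (κ : Type) [Field κ] [Algebra (ZMod p) κ]
    [IsAlgClosure (ZMod p) κ] (P C : Type) [Group P] [Finite P] [CommGroup C] [Finite C]
    (hP : IsPGroup p P) (hC : ¬ p ∣ Nat.card C) (n : ℕ) (A : Fin n → Type)
    [∀ i, CommRing (A i)] [∀ i, IsDomain (A i)] [∀ i, Algebra κ (A i)]
    [∀ i, Algebra.FiniteType κ (A i)] [∀ i, MulSemiringAction (P × C) (A i)]
    [∀ i, SMulCommClass (P × C) κ (A i)] (E : Fin n → Type) [∀ i, Field (E i)]
    [∀ i, Algebra κ (E i)] [∀ i, Algebra (A i) (E i)] [∀ i, IsScalarTower κ (A i) (E i)]
    [∀ i, IsFractionRing (A i) (E i)]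
    (hE : ∀ i, IsOrdinaryCurve p κ (E i) ∨ IsMildCurve (induced κ (A i) (E i) (P × C)) p)
    (B : Type) [CommRing B] [IsDomain B] [Algebra κ B] [MulSemiringAction (P × C) B]
    [SMulCommClass (P × C) κ B] (j : ∀ i, A i →ₐ[κ] B) (hj : IsTensorProduct j)
    (hjG : ∀ (g : P × C) (i : Fin n) (a : A i), g • j i a = j i (g • a))
    (K : Type) [Field K] [Algebra κ K] [Algebra (FixedPoints.subalgebra κ B (P × C)) K]
    [IsScalarTower κ (FixedPoints.subalgebra κ B (P × C)) K]
    [IsFractionRing (FixedPoints.subalgebra κ B (P × C)) K]
    (F : Subfield K) (hF : ∃ S : Finset K, Subfield.closure (S : Set K) = F)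
    (hFK : F ⊔ (algebraMap κ K).fieldRange = ⊤) :
    ∃ k₁ : Subfield κ, Finite k₁ ∧ ∀ k₂ : Subfield κ, Finite k₂ → k₁ ≤ k₂ →
      ∀ (Y : Scheme.{0}) [IsIntegral Y] (s : Y ⟶ Spec (CommRingCat.of ℤ)) [LocallyOfFiniteType s]
        [QuasiCompact s], Nonempty (Y.functionField ≃+* ↥(F ⊔ k₂.map (algebraMap κ K))) →
        ∃ (X' : Scheme.{0}) (_ : IsIntegral X') (g : X' ⟶ Spec (CommRingCat.of ℤ)), IsProper g ∧
          (∀ x : X', IsRegularAt x) ∧ Nonempty (X'.functionField ≃+* Y.functionField) := by
  have hj' : Pool.Agent.W558.WT.IsTP j := by
    refine ⟨fun S _ _ f => ?_, fun S _ _ g g' h => ?_⟩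
    · obtain ⟨g, hg, -⟩ := hj S f
      exact ⟨g, fun i a => congrArg (fun φ : A i →ₐ[κ] S => φ a) (hg i)⟩
    · exact (hj S fun i => g.comp (j i)).unique (fun i => rfl)
        fun i => (AlgHom.ext fun a => h i a).symm
  have hA : ∀ i, Pool.Agent.Zk10.Sch.FacG p (Pool.Agent.Zk10.Act.ind (E i)
      (MulSemiringAction.toAlgAut (P × C) κ (A i))) := by
    intro i
    rcases hE i with h | ⟨h1, h2⟩
    · exact Or.inl h
    · refine Or.inr (Or.inl ⟨h1, fun V hk hV => ?_⟩)
      rcases h2 V hk hV with h3 | h3
      · exact Or.inl h3
      · exact Or.inr (Or.inl h3)
  obtain ⟨k₁, hk₁, h⟩ := Pool.Agent.Zk62.OZ.main Pool.Agent.Zk50.OZ.t_LMS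
    Pool.Agent.Zk52.OZ.t_DESC p κ P C hP hC n A E hA B j hj' hjG K F hF hFK
  refine ⟨k₁, hk₁, fun k₂ hk₂ hle Y _ s _ _ hY => ?_⟩
  obtain ⟨X', hX', g, hg, hreg, ⟨i⟩⟩ := h k₂ hk₂ hle
  obtain ⟨i'⟩ := hY
  exact ⟨X', hX', g, hg, hreg, ⟨i.trans i'.symm⟩⟩

end Pool.Agent.Results.MP_4d1008_ag.OrdinaryCurveQuotients
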