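import Pool.Agent.Zk15.Fp19
import Pool.Agent.Zk15.Ff12
import Pool.Agent.Zk15.Gf1
import Pool.Agent.Zk15.Gf3

/-!
MP_4d1008_ag: models over the integers, in every dimension, of the arithmetic schemes whose function
field is the function field of an algebraic torus over a global field.

Let `T` be a torus of dimension `n` over a global field `E` (a number field or a function field of
one variable over a finite field). There is an integral scheme, proper over the integers and
birational to `T`, which is regular at all points whose residue characteristic `p` satisfies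
`p > n / 2 + 1` (or is `0`), and more generally at all points of residue characteristic `p` such
that, for the inertia groups at `p` of the splitting field, the order is not divisible by `p ^ 2`, or
`n - r < 2 (p - 1)`, where `r` is the rank of the invariants in the character group. So there is a
regular proper model if the wild inertia groups have order the residue characteristic, and for
function fields `E` of characteristic `p > n / 2 + 1` there is always a regular proper model. For the
tori `T × 𝔾_m ^ N`, `n` is to be replaced by the dimension of `T`. There is no hypothesis on the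
torus or on the ramification (wild, with arbitrary breaks) of its splitting field.

The proof: (1) the existence of smooth projective equivariant compactifications, for every action of
a finite group on a lattice (`exists_SP`). (2) At the wild fixed points of the Galois group on the
projective toric scheme over the splitting field there are weighted blowups (the weights depend on
the action on the lattice and on the ramification) on which the leading form of `g - 1` has no
zeros, for the wild automorphisms `g` (`wd_main`). (3) The resolution of quotients of this kind (the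
starting files behind WeightedWildQuotients), over the ring of `N`-integers of a number field
(`tori_N`), and, redone for bases of positive characteristic, over two affine pieces of a
projective curve, which are glued to one projective model (`twoBase`, `projM`). (4) A finite group
which acts faithfully on `Λ` has order not divisible by `p ^ 2` if `n - r < 2 (p - 1)`
(Minkowski; `mink_inv`).
-/

set_option autoImplicit false
set_option linter.unusedSectionVars false

open AlgebraicGeometry CategoryTheory

open scoped NumberField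

namespace Pool.Agent.Results.MP_4d1008_ag.ToriOverGlobalFields

/-- Global fields: number fields and function fields of one variable over finite fields. -/
def IsGlobalField (E : Type) [Field E] : Prop :=
  NumberField E ∨ ∃ (k : Type) (_ : Field k) (_ : Finite k) (_ : Algebra k E),
    Algebra.EssFiniteType k E ∧ Algebra.trdeg k E = 1

/-- The order of the finite group `H` is not divisible by `p ^ 2`, or `H` acts faithfully on the
lattice `Λ` and `n - r < 2 (p - 1)`, where `n` is the rank of `Λ` and `r` is the rank of the
sublattice of the invariants of `H`. -/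
def IsGood (p : ℕ) (H Λ : Type) [Group H] [AddCommGroup Λ] [DistribMulAction H Λ] : Prop :=
  ¬ p ^ 2 ∣ Nat.card H ∨ (FaithfulSMul H Λ ∧
    Module.finrank ℤ Λ < Module.finrank ℤ (FixedPoints.addSubgroup H Λ) + 2 * (p - 1))

/-- Minkowski. -/
lemma IsGood.not_dvd {p : ℕ} (hp : p.Prime) {H Λ : Type} [Group H] [Finite H] [AddCommGroup Λ]
    [Module.Finite ℤ Λ] [Module.Free ℤ Λ] [DistribMulAction H Λ] (h : IsGood p H Λ) :
    ¬ p ^ 2 ∣ Nat.card H := by
  rcases h with h | ⟨hf, hn⟩
  · exact h
  · refine Pool.Agent.Zk15.mink_inv hp (DistribMulAction.toModuleAut ℤ Λ)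
      (AddSubgroup.toIntSubmodule (FixedPoints.addSubgroup H Λ)) (fun μ => Iff.rfl) hn
      fun g hg => ?_
    exact FaithfulSMul.eq_of_smul_eq_smul fun μ : Λ => (hg μ).trans (one_smul H μ).symm

section

variable (E M Λ : Type) [Field E] [Field M] [Algebra E M] [AddCommGroup Λ]
  [DistribMulAction (M ≃ₐ[E] M) Λ]

/-- The automorphism of `M[Λ]` given by an element of the Galois group (used only for the proof
that the invariants are a subalgebra). -/
noncomputable def act (g : M ≃ₐ[E] M) : AddMonoidAlgebra M Λ ≃ₐ[E] AddMonoidAlgebra M Λ :=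
  (AddMonoidAlgebra.domCongr E M (DistribMulAction.toAddEquiv Λ g)).trans
    (AddMonoidAlgebra.mapAlgEquiv E Λ g)

lemma act_coeff (g : M ≃ₐ[E] M) (b : AddMonoidAlgebra M Λ) (μ : Λ) :
    (act E M Λ g b).coeff μ = g (b.coeff (g⁻¹ • μ)) := by
  change (AddMonoidAlgebra.mapAlgHom Λ (g : M →ₐ[E] M)
    (AddMonoidAlgebra.domCongr E M (DistribMulAction.toAddEquiv Λ g) b)).coeff μ = _
  rw [AddMonoidAlgebra.coeff_mapAlgHom, AddMonoidAlgebra.coeff_domCongr]
  rfl

lemma act_single (g : M ≃ₐ[E] M) (μ : Λ) (o : M) :
    act E M Λ g (AddMonoidAlgebra.single μ o) = AddMonoidAlgebra.single (g • μ) (g o) := by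
  change AddMonoidAlgebra.mapAlgHom Λ (g : M →ₐ[E] M)
    (AddMonoidAlgebra.domCongr E M (DistribMulAction.toAddEquiv Λ g)
      (AddMonoidAlgebra.single μ o)) = _
  rw [AddMonoidAlgebra.domCongr_single, AddMonoidAlgebra.mapAlgHom_single]
  rfl

lemma act_iff (g : M ≃ₐ[E] M) (b : AddMonoidAlgebra M Λ) :
    act E M Λ g b = b ↔ ∀ μ, b.coeff (g • μ) = g (b.coeff μ) := by
  constructor
  · intro h μ
    have h1 := act_coeff E M Λ g b (g • μ)
    rwa [h, inv_smul_smul] at h1
  · intro h
    ext μ
    rw [act_coeff, ← h, smul_inv_smul]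

/-- The coordinate ring of the torus over `E` which is split by the Galois extension `M` of `E` and
has the character lattice `Λ`, with the action of the Galois group on it: the ring of the
invariants of the Galois group on the ring `M[Λ]` of Laurent polynomials with coefficients in `M`
and exponents in `Λ`; the Galois group acts on the coefficients and on the exponents. -/
def coordinateRing : Subalgebra E (AddMonoidAlgebra M Λ) where
  carrier := {b | ∀ (g : M ≃ₐ[E] M) (μ : Λ), b.coeff (g • μ) = g (b.coeff μ)}
  mul_mem' := fun {a b} ha hb g => by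
    have h1 := (act_iff E M Λ g a).2 (ha g)
    have h2 := (act_iff E M Λ g b).2 (hb g)
    exact (act_iff E M Λ g _).1 (by rw [map_mul, h1, h2])
  add_mem' := fun {a b} ha hb g => by
    have h1 := (act_iff E M Λ g a).2 (ha g)
    have h2 := (act_iff E M Λ g b).2 (hb g)
    exact (act_iff E M Λ g _).1 (by rw [map_add, h1, h2])
  algebraMap_mem' := fun c g => (act_iff E M Λ g _).1 (AlgEquiv.commutes _ _)

end

/-- The inertia group of the valuation ring `V` of `M` over `E` (Mathlib's `inertiaSubgroup`, as a
subgroup of the Galois group). -/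
noncomputable def inertiaGroup (E : Type) {M : Type} [Field E] [Field M] [Algebra E M]
    (V : ValuationSubring M) : Subgroup (M ≃ₐ[E] M) :=
  (V.inertiaSubgroup E).map (V.decompositionSubgroup E).subtype

/-- The inertia groups of `M` over `E` at the characteristic `p` are good: those of all the
valuation rings of `M` in whose residue field `p = 0`. -/
def IsGoodAt (E M Λ : Type) [Field E] [Field M] [Algebra E M] [AddCommGroup Λ]
    [DistribMulAction (M ≃ₐ[E] M) Λ] (p : ℕ) : Prop :=
  ∀ V : ValuationSubring M, (p : M) ∈ V.nonunits → IsGood p (inertiaGroup E V) Λ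

/-- The dimension of the local ring of `X` at `x` equals the dimension of its cotangent space. -/
def IsRegularAt {X : Scheme.{0}} (x : X) : Prop :=
  (((Module.finrank (IsLocalRing.ResidueField (X.presheaf.stalk x))
    (IsLocalRing.CotangentSpace (X.presheaf.stalk x)) : ℕ∞)) : WithBot ℕ∞)
    = ringKrullDim (X.presheaf.stalk x)

/-- `F` is the function field of an integral scheme which is proper over the integers and regular
at all points with good residue characteristic. -/
def HasModel (E M Λ F : Type) [Field E] [Field M] [Algebra E M] [AddCommGroup Λ]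
    [DistribMulAction (M ≃ₐ[E] M) Λ] [Field F] : Prop :=
  ∃ (X : Scheme.{0}) (_ : IsIntegral X) (g : X ⟶ Spec (CommRingCat.of ℤ)), IsProper g ∧
    (∀ x : X, IsGoodAt E M Λ (ringChar (IsLocalRing.ResidueField (X.presheaf.stalk x))) →
      IsRegularAt x) ∧
    Nonempty (X.functionField ≃+* F)

section data

variable {E M Λ : Type} [Field E] [Field M] [Algebra E M] [AddCommGroup Λ]
  [DistribMulAction (M ≃ₐ[E] M) Λ]

lemma card_inertiaGroup (V : ValuationSubring M) :
    Nat.card (inertiaGroup E V) = Nat.card (V.inertiaSubgroup E) :=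
  Nat.card_congr (Subgroup.equivMapOfInjective (V.inertiaSubgroup E)
    (V.decompositionSubgroup E).subtype (V.decompositionSubgroup E).subtype_injective).toEquiv.symm

lemma li_single : LinearIndependent M
    (fun μ : Λ => (AddMonoidAlgebra.single μ 1 : AddMonoidAlgebra M Λ)) := by
  classical
  rw [linearIndependent_iff']
  intro s c hc μ hμ
  have h1 := congrArg (fun f => AddMonoidAlgebra.coeff f μ) hc
  simp only [AddMonoidAlgebra.coeff_sum, Finsupp.finsetSum_apply,
    AddMonoidAlgebra.coeff_smul, Finsupp.smul_apply, AddMonoidAlgebra.coeff_single,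
    Finsupp.single_apply, smul_eq_mul, mul_ite, mul_one, mul_zero,
    AddMonoidAlgebra.coeff_zero, Finsupp.zero_apply, Finset.sum_ite_eq', if_pos hμ] at h1
  exact h1

lemma sp_single : Algebra.adjoin M (Set.range fun μ : Λ =>
    (AddMonoidAlgebra.single μ 1 : AddMonoidAlgebra M Λ)) = ⊤ := by
  rw [eq_top_iff]
  intro f _
  rw [← AddMonoidAlgebra.sum_coeff_single f]
  refine Subalgebra.sum_mem _ fun μ _ => ?_
  have h1 : (AddMonoidAlgebra.single μ (f.coeff μ) : AddMonoidAlgebra M Λ) =
      f.coeff μ • AddMonoidAlgebra.single μ 1 := by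
    rw [AddMonoidAlgebra.smul_single, smul_eq_mul, mul_one]
  rw [h1]
  have h2 : (AddMonoidAlgebra.single μ 1 : AddMonoidAlgebra M Λ) ∈
      Algebra.adjoin M (Set.range fun μ : Λ =>
        (AddMonoidAlgebra.single μ 1 : AddMonoidAlgebra M Λ)) :=
    Algebra.subset_adjoin (Set.mem_range_self μ)
  exact Subalgebra.smul_mem _ h2 _

variable (E M Λ) in
/-- The action of the Galois group on `M[Λ]`. -/
noncomputable def θE : (M ≃ₐ[E] M) →* (AddMonoidAlgebra M Λ ≃ₐ[E] AddMonoidAlgebra M Λ) where
  toFun g := act E M Λ g
  map_one' := by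
    refine AlgEquiv.ext fun b => ?_
    change act E M Λ 1 b = b
    rw [act_iff]
    intro μ
    rw [one_smul, AlgEquiv.one_apply]
  map_mul' := by
    intro g h
    refine AlgEquiv.ext fun b => ?_
    change act E M Λ (g * h) b = act E M Λ g (act E M Λ h b)
    ext μ
    rw [act_coeff, act_coeff, act_coeff, mul_inv_rev, mul_smul, AlgEquiv.mul_apply]

lemma θE_apply (g : M ≃ₐ[E] M) (b : AddMonoidAlgebra M Λ) : θE E M Λ g b = act E M Λ g b := rfl

lemma θE_algebraMap (g : M ≃ₐ[E] M) (o : M) :
    act E M Λ g (algebraMap M (AddMonoidAlgebra M Λ) o) = algebraMap M (AddMonoidAlgebra M Λ) (g o) := by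
  have h1 := act_single E M Λ g 0 o
  rw [smul_zero] at h1
  exact h1

lemma θE_single (g : M ≃ₐ[E] M) (μ : Λ) :
    act E M Λ g (AddMonoidAlgebra.single μ 1) = AddMonoidAlgebra.single (g • μ) 1 := by
  have h1 := act_single E M Λ g μ 1
  rw [map_one] at h1
  exact h1

lemma θE_fix (b : AddMonoidAlgebra M Λ) :
    (∀ g, act E M Λ g b = b) ↔ ∃ d : coordinateRing E M Λ, (d : AddMonoidAlgebra M Λ) = b := by
  constructor
  · intro h
    exact ⟨⟨b, fun g => (act_iff E M Λ g b).1 (h g)⟩, rfl⟩
  · rintro ⟨d, rfl⟩ g
    exact (act_iff E M Λ g _).2 (d.2 g)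

/-- The coordinate ring is finitely generated. -/
theorem ft_coordinateRing [FiniteDimensional E M] [IsDomain (AddMonoidAlgebra M Λ)]
    [Module.Finite ℤ Λ] : Algebra.FiniteType E (coordinateRing E M Λ) := by
  have hΛ : AddMonoid.FG Λ :=
    AddGroup.fg_iff_addMonoid_fg.1 (Module.Finite.iff_addGroup_fg.1 inferInstance)
  have hft : Algebra.FiniteType E (AddMonoidAlgebra M Λ) :=
    Algebra.FiniteType.trans (inferInstance : Algebra.FiniteType E M) inferInstance
  have hinv : coordinateRing E M Λ = Pool.Agent.Zk15.F.invS (θE E M Λ) := by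
    ext b
    change (∀ (g : M ≃ₐ[E] M) (μ : Λ), b.coeff (g • μ) = g (b.coeff μ)) ↔ ∀ g, act E M Λ g b = b
    exact forall_congr' fun g => (act_iff E M Λ g b).symm
  rw [hinv]
  exact Pool.Agent.Zk15.F.invS_ft (θE E M Λ)

end data

/-- Tori over function fields. -/
theorem torusFF (p : ℕ) [Fact p.Prime] (k : Type) [Field k] [Finite k] [CharP k p]
    (E : Type) [Field E] [Algebra k E] [Algebra.EssFiniteType k E] (hE : Algebra.trdeg k E = 1)
    (M : Type) [Field M] [Algebra E M] [FiniteDimensional E M] [IsGalois E M] [Algebra k M]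
    [IsScalarTower k E M] (Λ : Type) [AddCommGroup Λ] [Module.Finite ℤ Λ] [Module.Free ℤ Λ]
    [DistribMulAction (M ≃ₐ[E] M) Λ]
    (F : Type) [Field F] [Algebra (coordinateRing E M Λ) F]
    [IsFractionRing (coordinateRing E M Λ) F] [Algebra k F]
    [IsScalarTower k (coordinateRing E M Λ) F] : HasModel E M Λ F := by
  classical
  have hp : p.Prime := Fact.out
  have hpk : (p : k) = 0 := CharP.cast_eq_zero k p
  have hpM : (p : M) = 0 := by rw [← map_natCast (algebraMap k M), hpk, map_zero]
  have hpF : (p : F) = 0 := by rw [← map_natCast (algebraMap k F), hpk, map_zero]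
  have hperf : PerfectField k := inferInstance
  let n := Module.finrank ℤ Λ
  let e0 : Module.Basis (Fin n) ℤ Λ := Module.finBasis ℤ Λ
  have hus : UniqueSums Λ :=
    (AddEquiv.uniqueSums_iff e0.equivFun.toAddEquiv).2 inferInstance
  have hdom : IsDomain (AddMonoidAlgebra M Λ) := NoZeroDivisors.to_isDomain _
  by_cases hgood : IsGoodAt E M Λ p
  · let φ : (M ≃ₐ[E] M) →* (Λ ≃ₗ[ℤ] Λ) := DistribMulAction.toModuleAut ℤ Λ
    let θ : (M ≃ₐ[E] M) →* (AddMonoidAlgebra M Λ ≃ₐ[k] AddMonoidAlgebra M Λ) :=
      { toFun := fun g => (θE E M Λ g).restrictScalars k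
        map_one' := by
          rw [map_one]
          rfl
        map_mul' := fun g h => by
          rw [map_mul]
          rfl }
    have hin : ∀ V : ValuationSubring M, (∀ c : k, algebraMap k M c ∈ V) → V ≠ ⊤ →
        ¬ p ^ 2 ∣ Nat.card (V.inertiaSubgroup E) := by
      intro V _ _
      have h1 := (hgood V (by
        rw [hpM, ValuationSubring.mem_nonunits_iff, map_zero]
        exact zero_lt_one)).not_dvd hp
      rwa [card_inertiaGroup] at h1
    have hsm := Pool.Agent.Zk15.torusHasSm (K := FractionRing (AddMonoidAlgebra M Λ)) (Y := F) hp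
      hpk hE hin θ (fun g o => θE_algebraMap g o) e0 φ (fun μ => AddMonoidAlgebra.single μ 1) rfl
      (fun a b => by rw [AddMonoidAlgebra.single_mul_single, mul_one]) li_single sp_single
      (fun g μ => θE_single g μ) (D := coordinateRing E M Λ)
      ((coordinateRing E M Λ).val.restrictScalars k) Subtype.val_injective (fun b => θE_fix b)
    obtain ⟨X', hX', g, hg, hreg, hi⟩ := Pool.Agent.Zk15.regular_of_hasSm hsm
    exact ⟨X', hX', g, hg, fun x _ => hreg x, hi⟩
  · have hft : Algebra.FiniteType E (coordinateRing E M Λ) := ft_coordinateRing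
    have h1 : Algebra.EssFiniteType k (coordinateRing E M Λ) := Algebra.EssFiniteType.comp k E _
    have h2 : Algebra.EssFiniteType (coordinateRing E M Λ) F :=
      Algebra.EssFiniteType.of_isLocalization F (nonZeroDivisors (coordinateRing E M Λ))
    have h3 : Algebra.EssFiniteType k F := Algebra.EssFiniteType.comp k (coordinateRing E M Λ) F
    obtain ⟨X', hX', g, hg, ⟨i⟩⟩ := Pool.Agent.Zk15.exists_proper_of_fg (k := k) (F := F)
    refine ⟨X', hX', g, hg, fun x hx => ?_, ⟨i⟩⟩
    rw [Pool.Agent.Zk15.ringChar_of_functionField i hp hpF x] at hx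
    exact absurd hx hgood

/-- Tori over number fields. -/
theorem torusNF (E : Type) [Field E] [NumberField E] (M : Type) [Field M] [NumberField M]
    [Algebra E M] [IsGalois E M] (Λ : Type) [AddCommGroup Λ] [Module.Finite ℤ Λ]
    [Module.Free ℤ Λ] [DistribMulAction (M ≃ₐ[E] M) Λ]
    (F : Type) [Field F] [Algebra (coordinateRing E M Λ) F]
    [IsFractionRing (coordinateRing E M Λ) F] [Algebra E F]
    [IsScalarTower E (coordinateRing E M Λ) F] : HasModel E M Λ F := by
  classical
  let n := Module.finrank ℤ Λ
  let e0 : Module.Basis (Fin n) ℤ Λ := Module.finBasis ℤ Λ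
  have hus : UniqueSums Λ :=
    (AddEquiv.uniqueSums_iff e0.equivFun.toAddEquiv).2 inferInstance
  have hdom : IsDomain (AddMonoidAlgebra M Λ) := NoZeroDivisors.to_isDomain _
  let φ : (M ≃ₐ[E] M) →* (Λ ≃ₗ[ℤ] Λ) := DistribMulAction.toModuleAut ℤ Λ
  -- the bad primes
  let S : Finset ℕ := (Nat.card (M ≃ₐ[E] M)).primeFactors.filter fun q => ¬ IsGoodAt E M Λ q
  let N : ℕ := ∏ q ∈ S, q
  have hS : ∀ q ∈ S, q.Prime ∧ ¬ IsGoodAt E M Λ q := fun q hq =>
    ⟨Nat.prime_of_mem_primeFactors (Finset.mem_filter.1 hq).1, (Finset.mem_filter.1 hq).2⟩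
  have hN : N ≠ 0 := Finset.prod_ne_zero_iff.2 fun q hq => (hS q hq).1.ne_zero
  obtain ⟨X', hX', g, hg, hreg, hi⟩ := Pool.Agent.Zk15.torusNF
    (K := FractionRing (AddMonoidAlgebra M Λ)) (Y := F) hN (by
    intro 𝔓 h𝔓 hN𝔓 p hp hp𝔓 hd
    have h1 : p ∣ Nat.card (M ≃ₐ[E] M) := (Dvd.intro_left (p ^ 1) (by ring)).trans
      (hd.trans (Subgroup.card_subgroup_dvd_card _))
    by_cases hgood : IsGoodAt E M Λ p
    · obtain ⟨V, hV, f, hf⟩ := Pool.Agent.Zk15.inert_hom (E := E) 𝔓 h𝔓 hp.ne_zero hp𝔓
      have h2 := (hgood V hV).not_dvd hp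
      rw [card_inertiaGroup] at h2
      exact h2 (hd.trans (Subgroup.card_dvd_of_injective f hf))
    · have h2 : p ∈ S := Finset.mem_filter.2
        ⟨Nat.mem_primeFactors.2 ⟨hp, h1, Nat.card_pos.ne'⟩, hgood⟩
      have h3 : p ∣ N := Finset.dvd_prod_of_mem (fun q => q) h2
      apply hN𝔓
      obtain ⟨c, hc⟩ := h3
      rw [hc]
      push_cast
      exact 𝔓.mul_mem_right _ hp𝔓) (θE E M Λ) (fun g o => θE_algebraMap g o) e0 φ
    (fun μ => AddMonoidAlgebra.single μ 1) rfl
    (fun a b => by rw [AddMonoidAlgebra.single_mul_single, mul_one]) li_single sp_single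
    (fun g μ => θE_single g μ) (D := coordinateRing E M Λ)
    (coordinateRing E M Λ).val Subtype.val_injective (fun b => θE_fix b)
  refine ⟨X', hX', g, hg, fun x hx => ?_, hi⟩
  have h4 := hreg x (by
    intro hd
    rcases CharP.char_is_prime_or_zero (IsLocalRing.ResidueField (X'.presheaf.stalk x))
      (ringChar (IsLocalRing.ResidueField (X'.presheaf.stalk x))) with hp | hp
    · obtain ⟨q, hq, hpq⟩ := (Prime.dvd_finsetProd_iff hp.prime _).1 hd
      obtain ⟨hqp, hqb⟩ := hS q hq
      have hpq' := (Nat.prime_dvd_prime_iff_eq hp hqp).1 hpq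
      rw [← hpq'] at hqb
      exact hqb hx
    · rw [hp] at hd
      exact hN (Nat.eq_zero_of_zero_dvd hd))
  unfold IsRegularAt
  rw [← (IsRegularLocalRing.iff_finrank_cotangentSpace _).1 h4]
  rfl

/-- Let `E` be a global field, let `M` be a finite Galois extension of `E` whose Galois group acts
on the lattice `Λ`, and let `F` be the function field of the torus over `E` with the character
lattice `Λ`. Every integral scheme `Y` of finite type over the integers with the function field `F`
is birational to an integral scheme `X` which is proper over the integers and regular at all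
points such that the inertia groups of `M` over `E` at the residue characteristic are good. -/
theorem result (E : Type) [Field E] (hE : IsGlobalField E)
    (M : Type) [Field M] [Algebra E M] [FiniteDimensional E M] [IsGalois E M]
    (Λ : Type) [AddCommGroup Λ] [Module.Finite ℤ Λ] [Module.Free ℤ Λ]
    [DistribMulAction (M ≃ₐ[E] M) Λ]
    (F : Type) [Field F] [Algebra (coordinateRing E M Λ) F]
    [IsFractionRing (coordinateRing E M Λ) F]
    (Y : Scheme.{0}) [IsIntegral Y] (s : Y ⟶ Spec (CommRingCat.of ℤ)) [LocallyOfFiniteType s]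
    [QuasiCompact s] (hY : Nonempty (Y.functionField ≃+* F)) :
    ∃ (X : Scheme.{0}) (_ : IsIntegral X) (g : X ⟶ Spec (CommRingCat.of ℤ)), IsProper g ∧
      (∀ x : X, IsGoodAt E M Λ (ringChar (IsLocalRing.ResidueField (X.presheaf.stalk x))) →
        IsRegularAt x) ∧
      Nonempty (X.functionField ≃+* Y.functionField) := by
  classical
  have key : HasModel E M Λ F := by
    rcases hE with hE | ⟨k, _, _, _, hess, htr⟩
    · have hM : NumberField M := NumberField.of_module_finite E M
      let _ : Algebra E F := ((algebraMap (coordinateRing E M Λ) F).comp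
        (algebraMap E (coordinateRing E M Λ))).toAlgebra
      have : IsScalarTower E (coordinateRing E M Λ) F := IsScalarTower.of_algebraMap_eq
        fun x => rfl
      exact torusNF E M Λ F
    · obtain ⟨p, hp⟩ := CharP.exists k
      have hpp : p.Prime := (CharP.char_is_prime_or_zero k p).resolve_right fun h0 => by
        subst h0
        have : CharZero k := CharP.charP_to_charZero k
        exact not_finite k
      have : Fact p.Prime := ⟨hpp⟩
      let _ : Algebra k M := ((algebraMap E M).comp (algebraMap k E)).toAlgebra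
      have : IsScalarTower k E M := IsScalarTower.of_algebraMap_eq fun x => rfl
      let _ : Algebra k F := ((algebraMap (coordinateRing E M Λ) F).comp
        (algebraMap k (coordinateRing E M Λ))).toAlgebra
      have : IsScalarTower k (coordinateRing E M Λ) F := IsScalarTower.of_algebraMap_eq
        fun x => rfl
      exact torusFF p k E htr M Λ F
  obtain ⟨i⟩ := hY
  obtain ⟨X, hX, g, hg, hreg, ⟨i'⟩⟩ := key
  exact ⟨X, hX, g, hg, hreg, ⟨i'.trans i.symm⟩⟩

end Pool.Agent.Results.MP_4d1008_ag.ToriOverGlobalFields
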